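import Pool.Agent.T6.H1.CT.Defs
import Pool.Agent.T6.H1.CT.MAIN
import Pool.Agent.T6.H1.CT.IA
import Pool.Agent.T6.H1.CT.STP
import Pool.Agent.T6.H1.CT.SNO
import Pool.Agent.T6.H1.CT.TEL
import Pool.Agent.T6.H1.CT.NM
import Pool.Agent.T6.H1.CT.GAU
import Pool.Agent.T6.H1.CT.PTH
import Pool.Agent.T6.H1.CT.SCH
import Pool.Agent.T6.H1.CT.SEQ
import Pool.Agent.T6.H1.CT.CONN
import Pool.Agent.T6.H1.CT.UNR
import Pool.Agent.T6.H1.CT.SPL
import Pool.Agent.T6.H1.CT.SYM
import Pool.Agent.T6.H1.CT.VAR
import Pool.Agent.T6.H1.CT.PAT
import Pool.Agent.T6.H1.CT.HID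
import Pool.Agent.T6.H1.CT.NUM
import Pool.Agent.T6.H1.CT.ONE

/-!
# Balanced community modulated recursive trees: there is no consistent estimator of `q`

Two nodes of types `A`, `B` arrive at each time; each one chooses the type of its parent (its own
type with probability `1 - q`, the other type with probability `q`) and a uniformly random earlier
node of this type.  Neither the rooted unlabelled tree nor the unrooted unlabelled tree determines
`q` asymptotically: no sequence of functions of the isomorphism class converges in probability to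
`q` for all `q ∈ [0, 1/2]`.  More precisely the total variation distance between the laws of the
rooted unlabelled trees for `q` and for `1/2` is at most `C (1 - 2 q) ^ 2`, uniformly in the size.

The model (`Pool.Agent.T6.H1.CT.Defs`): `Cfg m` is the set of the attachments of the nodes of the
times `1, …, m` (the two nodes of time `0` are the ends of the root edge, so that the tree has
`2 (m + 1)` nodes); `tree ω` is the tree; `law q ω` is the probability of `ω`; `RIso`, `UIso` are
isomorphisms of the rooted and of the unrooted trees; `prob q S` is the probability of `S`.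

Proof.  Let `θ = 1 - 2 q`.  Replace `θ` by `0` one step after the other.  A single change has the
effect `- θ² E [σ(u) σ(u') 1_S]`, where `u`, `u'` are the random parents in this step and `σ` are
the types.  A gauge symmetry of the hidden types restricts this mean to pairs whose arrival times
are connected by open edges (an edge is open with probability `θ`), and this has probability
`O(1 / t)` at time `t` for small `θ` (self-avoiding paths and a Schur test).  The remaining kernel
is symmetric with mean zero rows, and the following `t ^ (3/4)` uniform attachments hide it: its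
effect on unlabelled trees is a degenerate U-statistic, of size `O(t ^ (- 5/4))`, a summable bound.

Modules by helper18 (SPL, PAT, PTH), helper27 (TEL, SYM, NUM), helper70 (CON, VAR),
helper74 (GAU, UNR), helper82 (STP, SNO, SEQ), helper94 (NM, SCH), helper1 (the rest).
-/

set_option autoImplicit false

namespace Pool.Agent.Results.MP_e7e4ab_pr.NoConsistentEstimator

open Pool.Agent.T6.H1.CT

/-- 1. The laws of the rooted unlabelled trees for `q` and `1/2` are close, uniformly in the size.
2. There is no consistent estimator in the rooted unlabelled model.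
3. There is no consistent estimator in the unrooted unlabelled model. -/
theorem result :
    (∃ C : ℝ, ∀ q ∈ Set.Icc (23 / 48 : ℝ) (1 / 2), ∀ (m : ℕ) (S : Set (Cfg m)),
      (∀ ω ω' : Cfg m, RIso ω ω' → (ω ∈ S ↔ ω' ∈ S)) →
        |prob q S - prob (1 / 2) S| ≤ C * (1 - 2 * q) ^ 2) ∧
    (¬ ∃ f : (m : ℕ) → Cfg m → ℝ,
      (∀ (m : ℕ) (ω ω' : Cfg m), RIso ω ω' → f m ω = f m ω') ∧
      ∀ q ∈ Set.Icc (0 : ℝ) (1 / 2), ∀ ε : ℝ, 0 < ε →
        Filter.Tendsto (fun m : ℕ => prob q {ω : Cfg m | ε < |f m ω - q|}) Filter.atTop (nhds 0)) ∧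
    (¬ ∃ f : (m : ℕ) → Cfg m → ℝ,
      (∀ (m : ℕ) (ω ω' : Cfg m), UIso ω ω' → f m ω = f m ω') ∧
      ∀ q ∈ Set.Icc (0 : ℝ) (1 / 2), ∀ ε : ℝ, 0 < ε →
        Filter.Tendsto (fun m : ℕ => prob q {ω : Cfg m | ε < |f m ω - q|}) Filter.atTop (nhds 0)) :=
  have hGAU : StmGAU := tGAU tIA tMN
  have hSTP : StmSTP := tSTP tIA
  have hCON : StmCON := tCON tNU tPTH tSCH tSEQ
  have hHID : StmHID := tHID (tUNR tIA hSTP) tSPL (tSYM tIA) tVAR tPAT
  have hONE : StmONE := tONE hSTP tNU hGAU hCON hHID
  have hTEL : StmTEL := tTEL tIA hSTP tSNO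
  tMAIN (tTV hTEL hONE tNUM)

end Pool.Agent.Results.MP_e7e4ab_pr.NoConsistentEstimator
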